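import Pool.Agent.ASE.Stmts2

/-!
# Squad ASE, row CYU: uniqueness of the structure of the local blocks
-/

open scoped BigOperators

noncomputable section

namespace Pool.Agent.PP.SE.H69

open Pool.Agent.Helper51_AWC Pool.Agent.Helper79_WRA Pool.Agent.PP Pool.Agent.PP.KF
open Pool.Agent.PP.K9 Pool.Agent.PP.K9.H97 Pool.Agent.PP.H75 Pool.Agent.PP.T3 Pool.Agent.PP.SO
open Pool.Agent.PP.SD

attribute [local instance] Ideal.Quotient.field

theorem two_add_ne (ℓ : ℕ) [hp : Fact ℓ.Prime] (h2 : ℓ ≠ 2) (q : ℚ) (hq : q ∈ SOR.Rl ℓ) :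
    (2 : ℚ) + ℓ * q ≠ 0 := by
  intro h
  have hden : ¬ ℓ ∣ q.den := hq
  have h3 : (q.num : ℚ) = q * q.den := (Rat.mul_den_eq_num q).symm
  have h4 : (2 : ℚ) * q.den + ℓ * q.num = 0 := by
    rw [h3]
    linear_combination (q.den : ℚ) * h
  have h5 : (2 : ℤ) * q.den + ℓ * q.num = 0 := by exact_mod_cast h4
  have h6 : (ℓ : ℤ) ∣ ((2 * q.den : ℕ) : ℤ) := by
    refine ⟨-q.num, ?_⟩
    push_cast
    linear_combination h5
  have h7 : ℓ ∣ 2 * q.den := by exact_mod_cast h6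
  rcases (Nat.Prime.dvd_mul hp.out).1 h7 with h | h
  · exact h2 ((Nat.prime_dvd_prime_iff_eq hp.out Nat.prime_two).1 h)
  · exact hden h

theorem sgn_eq (ℓ : ℕ) [hp : Fact ℓ.Prime] (h2 : ℓ ≠ 2) (a b : ℤ) (c : ℂ) (q q' : ℚ)
    (ha : a = 1 ∨ a = -1) (hb : b = 1 ∨ b = -1) (hq : q ∈ SOR.Rl ℓ) (hq' : q' ∈ SOR.Rl ℓ)
    (h : (a : ℂ) * c = ((1 + ℓ * q : ℚ) : ℂ)) (h' : (b : ℂ) * c = ((1 + ℓ * q' : ℚ) : ℂ)) :
    a = b := by
  have key : ∀ r r' : ℚ, r ∈ SOR.Rl ℓ → r' ∈ SOR.Rl ℓ → c = ((1 + ℓ * r : ℚ) : ℂ) →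
      -c = ((1 + ℓ * r' : ℚ) : ℂ) → False := by
    intro r r' hr hr' e1 e2
    have e3 : (((2 : ℚ) + ℓ * (r + r') : ℚ) : ℂ) = 0 := by
      have : ((1 + ℓ * r : ℚ) : ℂ) + ((1 + ℓ * r' : ℚ) : ℂ) = 0 := by
        rw [← e1, ← e2]
        ring
      rw [← this]
      push_cast
      ring
    have e4 : (2 : ℚ) + ℓ * (r + r') = 0 := by exact_mod_cast e3
    exact two_add_ne ℓ h2 _ ((SOR.Rl ℓ).add_mem hr hr') e4
  rcases ha with rfl | rfl <;> rcases hb with rfl | rfl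
  · rfl
  · exfalso
    refine key q q' hq hq' ?_ ?_
    · rw [← h]
      push_cast
      ring
    · rw [← h']
      push_cast
      ring
  · exfalso
    refine key q' q hq' hq ?_ ?_
    · rw [← h']
      push_cast
      ring
    · rw [← h]
      push_cast
      ring
  · rfl

section four

variable {V₀ : Type} [CommGroup V₀]

theorem lin_inv {t : V₀ → ℂ} (ht : t ∈ lin V₀) (v : V₀) : t v⁻¹ * t v = 1 := by
  rw [← ht.2, inv_mul_cancel, ht.1]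

theorem mul_mem_lk {W : Subgroup V₀} {s t : V₀ → ℂ} (hs : s ∈ lk W) (ht : t ∈ lk W) :
    (fun v => t v⁻¹ * s v) ∈ lk W := by
  refine ⟨⟨?_, ?_⟩, ?_⟩
  · simp only [inv_one]
    rw [ht.1.1, hs.1.1, one_mul]
  · intro v w
    simp only [mul_inv]
    rw [ht.1.2, hs.1.2]
    ring
  · intro w hw
    simp only
    rw [ht.2 _ (W.inv_mem hw), hs.2 w hw, one_mul]

/-- Fourier inversion on `k`. -/
theorem four [Finite V₀] (W k : Subgroup V₀)
    (hk : ∀ s ∈ lk W, s ≠ (fun _ => 1) → ∑ᶠ y ∈ (k : Set V₀), s y = 0)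
    (A : Set (V₀ → ℂ)) (hA : A.Finite) (hAW : A ⊆ lk W) (t : V₀ → ℂ) (ht : t ∈ lk W) :
    (t ∈ A → ∑ᶠ y ∈ (k : Set V₀), t y⁻¹ * ∑ᶠ s ∈ A, s y = (Nat.card k : ℂ)) ∧
    (t ∉ A → ∑ᶠ y ∈ (k : Set V₀), t y⁻¹ * ∑ᶠ s ∈ A, s y = 0) := by
  classical
  have hkf : (k : Set V₀).Finite := Set.toFinite _
  have h1 : ∑ᶠ y ∈ (k : Set V₀), t y⁻¹ * ∑ᶠ s ∈ A, s y =
      ∑ s ∈ hA.toFinset, ∑ᶠ y ∈ (k : Set V₀), t y⁻¹ * s y := by
    rw [finsum_mem_eq_finite_toFinset_sum _ hkf]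
    have : ∀ s : V₀ → ℂ, ∑ᶠ y ∈ (k : Set V₀), t y⁻¹ * s y = ∑ y ∈ hkf.toFinset, t y⁻¹ * s y :=
      fun s => finsum_mem_eq_finite_toFinset_sum _ hkf
    simp only [this]
    rw [Finset.sum_comm]
    apply Finset.sum_congr rfl
    intro y _
    rw [finsum_mem_eq_finite_toFinset_sum _ hA, Finset.mul_sum]
  have h2 : ∀ s ∈ hA.toFinset, ∑ᶠ y ∈ (k : Set V₀), t y⁻¹ * s y =
      if s = t then (Nat.card k : ℂ) else 0 := by
    intro s hs
    have hs' : s ∈ lk W := hAW ((hA.mem_toFinset).1 hs)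
    split_ifs with hst
    · subst hst
      have : ∀ y, s y⁻¹ * s y = 1 := fun y => lin_inv hs'.1 y
      simp only [this]
      rw [finsum_mem_eq_finite_toFinset_sum _ hkf, Finset.sum_const, nsmul_eq_mul, mul_one]
      congr 1
      rw [← Set.ncard_eq_toFinset_card (k : Set V₀) hkf]
      exact (Nat.card_coe_set_eq (k : Set V₀)).symm
    · refine hk _ (mul_mem_lk hs' ht) ?_
      intro h
      apply hst
      funext v
      have h3 := congrFun h v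

      have h4 := lin_inv ht.1 v
      have h5 : t v⁻¹ ≠ 0 := by
        intro h0
        rw [h0, zero_mul] at h4
        exact zero_ne_one h4
      have h6 : t v⁻¹ * s v = t v⁻¹ * t v := by rw [h3, h4]
      exact mul_left_cancel₀ h5 h6
  rw [h1, Finset.sum_congr rfl h2]
  constructor
  · intro htA
    rw [Finset.sum_ite_eq' , if_pos ((hA.mem_toFinset).2 htA)]
  · intro htA
    rw [Finset.sum_ite_eq' , if_neg (fun h => htA ((hA.mem_toFinset).1 h))]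

/-- Sets of characters with the same sums are equal. -/
theorem set_eq [Finite V₀] (W k : Subgroup V₀)
    (hk : ∀ s ∈ lk W, s ≠ (fun _ => 1) → ∑ᶠ y ∈ (k : Set V₀), s y = 0)
    (A A' : Set (V₀ → ℂ)) (hA : A.Finite) (hAW : A ⊆ lk W) (hA' : A'.Finite)
    (hAW' : A' ⊆ lk W) (h : ∀ y ∈ k, ∑ᶠ s ∈ A, s y = ∑ᶠ s ∈ A', s y) : A = A' := by
  have hc : (Nat.card k : ℂ) ≠ 0 := by
    exact_mod_cast Nat.card_pos.ne'
  have h1 : ∀ t : V₀ → ℂ, ∑ᶠ y ∈ (k : Set V₀), t y⁻¹ * ∑ᶠ s ∈ A, s y =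
      ∑ᶠ y ∈ (k : Set V₀), t y⁻¹ * ∑ᶠ s ∈ A', s y := by
    intro t
    apply finsum_mem_congr rfl
    intro y hy
    rw [h y hy]
  ext t
  constructor
  · intro ht
    by_contra ht'
    have e1 := (four W k hk A hA hAW t (hAW ht)).1 ht
    have e2 := (four W k hk A' hA' hAW' t (hAW ht)).2 ht'
    rw [h1 t, e2] at e1
    exact hc e1.symm
  · intro ht
    by_contra ht'
    have e1 := (four W k hk A' hA' hAW' t (hAW' ht)).1 ht
    have e2 := (four W k hk A hA hAW t (hAW' ht)).2 ht'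
    rw [← h1 t, e2] at e1
    exact hc e1.symm

end four

theorem cyu (gec : GecStmt) (vxm : VxmStmt) : CyuStmt := by
  intro ℓ _ M _ hM h2 V₀ G _ _ _ _ E₀ hF B hB W hW N e e' O O' h h' χ hχ
  obtain ⟨-, ⟨-, -, -, ⟨ν, hν, hχν⟩, -, -⟩, -⟩ := vxm ℓ M hM h2 V₀ G E₀ hF B hB W hW χ hχ
  obtain ⟨-, -, hlf, -, -, -, -, -, hact, horb, -, hk, -, -⟩ := gec ℓ V₀ E₀ hF W hW
  have hL := h.lv ν hν
  have hL' := h'.lv ν hν
  have hs := hL.sg χ hχν
  have hs' := hL'.sg χ hχν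
  have hee : e χ = e' χ := by
    by_cases hN : χ ∈ N
    · obtain ⟨q, hq, h1⟩ := h.un χ hχ hN
      obtain ⟨q', hq', h1'⟩ := h'.un χ hχ hN
      refine sgn_eq ℓ h2 (e χ) (e' χ) (Nat.card (B.C W) * B.D ⊤ /
        (nS E₀ W * Nat.card (B.C ⊤) * χ 1)) q q' hs hs' hq hq' ?_ ?_
      · rw [← h1]
        ring
      · rw [← h1']
        ring
    · obtain ⟨q, hq, h1⟩ := h.ux
      obtain ⟨q', hq', h1'⟩ := h'.ux
      refine sgn_eq ℓ h2 (e χ) (e' χ) (Nat.card (B.C W) * B.D ⊤ /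
        (Nat.card (B.C ⊤) * χ 1)) q q' hs hs' hq hq' ?_ ?_
      · rw [← h1 χ hχ hN]
        ring
      · rw [← h1' χ hχ hN]
        ring
  refine ⟨hee, fun hN => ?_⟩
  obtain ⟨⟨s, hsW, hs1, hO⟩, hv⟩ := hL.vX χ hχν hN
  obtain ⟨⟨s', hsW', hs1', hO'⟩, hv'⟩ := hL'.vX χ hχν hN
  have hOW : ∀ (s : V₀ → ℂ), s ∈ lk W → orb E₀ W s ⊆ lk W := by
    rintro s hs t ⟨τ, hτ, rfl⟩
    exact (hact s hs τ hτ).1
  have hA : O χ ⊆ lk W := by
    rw [hO]
    exact hOW s hsW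
  have hA' : O' χ ⊆ lk W := by
    rw [hO']
    exact hOW s' hsW'
  have hone : ∀ A : Set (V₀ → ℂ), A ⊆ lk W → ∑ᶠ s ∈ A, s (1 : V₀) = (A.ncard : ℂ) := by
    intro A hAW
    have hfin : A.Finite := hlf.subset hAW
    have : ∑ᶠ s ∈ A, s (1 : V₀) = ∑ᶠ s ∈ A, (1 : ℂ) :=
      finsum_mem_congr rfl (fun s hs => (hAW hs).1.1)
    rw [this, finsum_mem_eq_finite_toFinset_sum _ hfin, Finset.sum_const, nsmul_eq_mul, mul_one,
      Set.ncard_eq_toFinset_card A hfin]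
  refine set_eq W (kW E₀ W) hk (O χ) (O' χ) (hlf.subset hA) hA (hlf.subset hA') hA' ?_
  intro y hy
  by_cases hy1 : y = 1
  · subst hy1
    rw [hone _ hA, hone _ hA', hO, hO', (horb s hsW hs1).1, (horb s' hsW' hs1').1]
  · have e1 := hv y hy hy1
    have e2 := hv' y hy hy1
    rw [e1, ← hee] at e2
    have hne : ((e χ : ℤ) : ℂ) ≠ 0 := by
      rcases hs with h | h <;> rw [h] <;> norm_num
    exact mul_left_cancel₀ hne e2

end Pool.Agent.PP.SE.H69
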