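import Pool.Agent.ASE.Stmts2
import Pool.Agent.ASE.StmtsX

noncomputable section

namespace Pool.Agent.PP.SE.H69

open Pool.Agent.Helper51_AWC Pool.Agent.Helper79_WRA Pool.Agent.PP Pool.Agent.PP.KF
open Pool.Agent.PP.K9 Pool.Agent.PP.K9.H97 Pool.Agent.PP.H75 Pool.Agent.PP.T3 Pool.Agent.PP.SO
open Pool.Agent.PP.SD

attribute [local instance] Ideal.Quotient.field

theorem lnc (h : LmeStmt) : LncStmt := by
  intro ℓ _ M _ hM h2 V₀ G _ _ _ _ E₀ hF B hB hc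
  obtain ⟨_, h3, h4⟩ := h ℓ M hM h2 V₀ G E₀ hF B hB
  rw [← h3]
  exact h4 E₀ le_rfl hc

end Pool.Agent.PP.SE.H69
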